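import Pool.Agent.Helper82K9.PR.PR4

/-!
# The large prime factors of the values of a quadratic polynomial, on average
-/

set_option autoImplicit false

namespace Pool.Agent.Helper88K9.PT

open Finset
open Pool.Agent.Helper82K9.PR (sg LP)

lemma class_card (p : ℕ) (hp : 0 < p) (H : ℕ) (r : ℤ) :
    (#{l ∈ Icc (-(H : ℤ)) H | (p : ℤ) ∣ l - r} : ℝ) ≤ (2 * H + 1) / p + 1 := by
  have hp' : (0 : ℤ) < (p : ℤ) := by exact_mod_cast hp
  have h := Int.Ioc_filter_modEq_card (-(H : ℤ) - 1) (H : ℤ) hp' r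
  have e : ({l ∈ Icc (-(H : ℤ)) H | (p : ℤ) ∣ l - r} : Finset ℤ) =
      {x ∈ Ioc (-(H : ℤ) - 1) (H : ℤ) | x ≡ r [ZMOD (p : ℤ)]} := by
    ext x
    simp only [mem_filter, mem_Icc, mem_Ioc]
    constructor
    · rintro ⟨⟨h1, h2⟩, h3⟩
      exact ⟨⟨by omega, h2⟩, (Int.modEq_iff_dvd.2 (by rw [← neg_sub]; exact (dvd_neg).2 h3))⟩
    · rintro ⟨⟨h1, h2⟩, h3⟩
      refine ⟨⟨by omega, h2⟩, ?_⟩
      have := Int.modEq_iff_dvd.1 h3
      rw [← neg_sub]
      exact (dvd_neg).2 this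
  rw [e]
  have h2 : ((#{x ∈ Ioc (-(H : ℤ) - 1) (H : ℤ) | x ≡ r [ZMOD (p : ℤ)]} : ℤ) : ℚ) ≤
      (2 * H + 1) / p + 1 := by
    rw [h]
    have hpq : (0 : ℚ) < p := by exact_mod_cast hp
    have h3 := Int.floor_le (((H : ℤ) - r : ℚ) / ((p : ℤ) : ℚ))
    have h4 := Int.lt_floor_add_one ((((-(H : ℤ) - 1 : ℤ) : ℚ) - r) / ((p : ℤ) : ℚ))
    have h5 : ((H : ℤ) - r : ℚ) / ((p : ℤ) : ℚ) - (((-(H : ℤ) - 1 : ℤ) : ℚ) - r) / ((p : ℤ) : ℚ) =
        (2 * H + 1) / p := by
      push_cast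
      ring
    have h6 : (0 : ℚ) ≤ (2 * H + 1) / p := by positivity
    push_cast at *
    apply max_le
    · linarith
    · linarith
  have h3 : (((#{x ∈ Ioc (-(H : ℤ) - 1) (H : ℤ) | x ≡ r [ZMOD (p : ℤ)]} : ℤ) : ℚ) : ℝ) ≤
      (((2 * H + 1) / p + 1 : ℚ) : ℝ) := by exact_mod_cast h2
  push_cast at h3
  exact h3

lemma roots_card (p : ℕ) (hp : p.Prime) (H : ℕ) (A B D : ℤ) (hA : ¬ (p : ℤ) ∣ A) :
    (#{l ∈ Icc (-(H : ℤ)) H | (p : ℤ) ∣ A * l ^ 2 + B * l + D} : ℝ) ≤
      2 * ((2 * H + 1) / p + 1) := by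
  classical
  have hpi : Prime (p : ℤ) := Nat.prime_iff_prime_int.1 hp
  have hpos : (0 : ℝ) ≤ (2 * H + 1) / p + 1 := by positivity
  set S : Finset ℤ := {l ∈ Icc (-(H : ℤ)) H | (p : ℤ) ∣ A * l ^ 2 + B * l + D} with hS
  rcases S.eq_empty_or_nonempty with h0 | ⟨r1, hr1⟩
  · rw [h0, card_empty, Nat.cast_zero]
    positivity
  · have hr1' := (mem_filter.1 hr1).2
    have key : ∀ l ∈ S, (p : ℤ) ∣ l - r1 ∨ (p : ℤ) ∣ A * (l + r1) + B := by
      intro l hl
      have h1 := dvd_sub (mem_filter.1 hl).2 hr1'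
      have h2 : A * l ^ 2 + B * l + D - (A * r1 ^ 2 + B * r1 + D) =
          (l - r1) * (A * (l + r1) + B) := by ring
      rw [h2] at h1
      exact hpi.dvd_or_dvd h1
    have h3 : ∃ r2 : ℤ, ∀ l ∈ S, (p : ℤ) ∣ l - r1 ∨ (p : ℤ) ∣ l - r2 := by
      by_cases hex : ∃ r2 : ℤ, (p : ℤ) ∣ A * (r2 + r1) + B
      · obtain ⟨r2, hr2⟩ := hex
        refine ⟨r2, fun l hl => ?_⟩
        rcases key l hl with h | h
        · exact Or.inl h
        · right
          have h4 := dvd_sub h hr2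
          have h5 : A * (l + r1) + B - (A * (r2 + r1) + B) = A * (l - r2) := by ring
          rw [h5] at h4
          exact (hpi.dvd_or_dvd h4).resolve_left hA
      · refine ⟨0, fun l hl => ?_⟩
        rcases key l hl with h | h
        · exact Or.inl h
        · exact absurd ⟨l, h⟩ hex
    obtain ⟨r2, h3⟩ := h3
    have h4 : S ⊆ ({l ∈ Icc (-(H : ℤ)) H | (p : ℤ) ∣ l - r1} : Finset ℤ) ∪
        ({l ∈ Icc (-(H : ℤ)) H | (p : ℤ) ∣ l - r2} : Finset ℤ) := by
      intro l hl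
      rw [mem_union, mem_filter, mem_filter]
      have := (mem_filter.1 hl).1
      rcases h3 l hl with h | h
      · exact Or.inl ⟨this, h⟩
      · exact Or.inr ⟨this, h⟩
    have h5 : (#S : ℝ) ≤ (#{l ∈ Icc (-(H : ℤ)) H | (p : ℤ) ∣ l - r1} : ℝ) +
        (#{l ∈ Icc (-(H : ℤ)) H | (p : ℤ) ∣ l - r2} : ℝ) := by
      exact_mod_cast (card_le_card h4).trans (card_union_le _ _)
    have h6 := class_card p hp.pos H r1
    have h7 := class_card p hp.pos H r2
    linarith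

lemma zeros_card (H : ℕ) (A B D : ℤ) (hA : A ≠ 0) :
    #{l ∈ Icc (-(H : ℤ)) H | A * l ^ 2 + B * l + D = 0} ≤ 2 := by
  classical
  set S : Finset ℤ := {l ∈ Icc (-(H : ℤ)) H | A * l ^ 2 + B * l + D = 0} with hS
  by_contra hcon
  push Not at hcon
  obtain ⟨a, ha, b, hb, c, hc, hab, hac, hbc⟩ := (Finset.two_lt_card (s := S)).1 hcon
  have ha' := (mem_filter.1 ha).2
  have hb' := (mem_filter.1 hb).2
  have hc' := (mem_filter.1 hc).2
  have h1 : (a - b) * (A * (a + b) + B) = 0 := by linear_combination ha' - hb'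
  have h2 : (a - c) * (A * (a + c) + B) = 0 := by linear_combination ha' - hc'
  have h3 := (mul_eq_zero.1 h1).resolve_left (sub_ne_zero.2 hab)
  have h4 := (mul_eq_zero.1 h2).resolve_left (sub_ne_zero.2 hac)
  have h5 : A * (b - c) = 0 := by linear_combination h3 - h4
  rcases mul_eq_zero.1 h5 with h | h
  · exact hA h
  · exact hbc (sub_eq_zero.1 h)

/-- a number below `H ^ 3` has at most two prime factors larger than `H` -/
lemma big_card (H m : ℕ) (hH : 2 ≤ H) (hm : m ≠ 0) (hmH : m < H ^ 3) :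
    #(m.primeFactors.filter fun p => H < p) ≤ 2 := by
  set T := m.primeFactors.filter fun p => H < p with hT
  have h1 : ∏ p ∈ T, p ∣ m :=
    (prod_dvd_prod_of_subset _ _ _ (filter_subset _ _)).trans (Nat.prod_primeFactors_dvd m)
  have h2 : H ^ #T ≤ ∏ p ∈ T, p := by
    rw [← prod_const]
    exact prod_le_prod' fun p hp => (mem_filter.1 hp).2.le
  have h3 : H ^ #T < H ^ 3 := lt_of_le_of_lt (h2.trans (Nat.le_of_dvd (Nat.pos_of_ne_zero hm) h1)) hmH
  have := (Nat.pow_lt_pow_iff_right (by omega : 1 < H)).1 h3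
  omega

lemma sg_le (z H m : ℕ) (hH : 2 ≤ H) (hm : m ≠ 0) (hmH : m < H ^ 3) :
    sg z m ≤ (∑ p ∈ (Ioc z H).filter Nat.Prime, if p ∣ m then 1 / (p : ℝ) else 0) + 2 / H := by
  classical
  have hH0 : (0 : ℝ) < H := by exact_mod_cast (by omega : 0 < H)
  unfold sg
  rw [← sum_filter_add_sum_filter_not (LP z m) (fun p => p ≤ H)]
  apply add_le_add
  · rw [← sum_filter]
    apply sum_le_sum_of_subset_of_nonneg
    · intro p hp
      rw [mem_filter, LP, mem_filter, Nat.mem_primeFactors] at hp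
      rw [mem_filter, mem_filter, mem_Ioc]
      exact ⟨⟨⟨hp.1.2, hp.2⟩, hp.1.1.1⟩, hp.1.1.2.1⟩
    · intro p _ _
      positivity
  · have h1 : ((LP z m).filter fun p => ¬ p ≤ H) ⊆ m.primeFactors.filter fun p => H < p := by
      intro p hp
      rw [mem_filter, LP, mem_filter] at hp
      rw [mem_filter]
      exact ⟨hp.1.1, not_le.1 hp.2⟩
    calc ∑ p ∈ (LP z m).filter (fun p => ¬ p ≤ H), 1 / (p : ℝ)
        ≤ ∑ p ∈ m.primeFactors.filter (fun p => H < p), 1 / (p : ℝ) :=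
          sum_le_sum_of_subset_of_nonneg h1 fun p _ _ => by positivity
      _ ≤ ∑ _p ∈ m.primeFactors.filter (fun p => H < p), 1 / (H : ℝ) := by
          apply sum_le_sum
          intro p hp
          have : (H : ℝ) ≤ p := by exact_mod_cast (mem_filter.1 hp).2.le
          exact one_div_le_one_div_of_le hH0 this
      _ = (#(m.primeFactors.filter fun p => H < p) : ℝ) * (1 / H) := by
          rw [sum_const, nsmul_eq_mul]
      _ ≤ 2 * (1 / H) := by
          have := big_card H m hH hm hmH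
          have h2 : (#(m.primeFactors.filter fun p => H < p) : ℝ) ≤ 2 := by exact_mod_cast this
          exact mul_le_mul_of_nonneg_right h2 (by positivity)
      _ = 2 / H := by ring

/-- For most `l` the value at `l` of a quadratic polynomial with fixed leading coefficient has few large
prime factors. -/
theorem quad_most (A : ℤ) (hA : A ≠ 0) (K ε : ℝ) (hε : 0 < ε) : ∃ z0 : ℕ, ∀ z : ℕ, z0 ≤ z →
    ∃ H0 : ℕ, ∀ H : ℕ, H0 ≤ H → ∀ (B D : ℤ) (Q : ℤ → ℤ), (∀ l, Q l = A * l ^ 2 + B * l + D) →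
    (∀ l ∈ Icc (-(H : ℤ)) H, ((Q l).natAbs : ℝ) ≤ K * H ^ 2) → ∀ S : Finset ℤ,
    (∀ l ∈ S, l ∈ Icc (-(H : ℤ)) H ∧ (Q l = 0 ∨ ε < sg z (Q l).natAbs)) →
    (#S : ℝ) ≤ ε * (2 * H + 1) := by
  classical
  refine ⟨max (A.natAbs + 1) ⌈6 / ε ^ 2⌉₊, fun z hz => ⟨max 2 (max (⌈K⌉₊ + 1) ⌈(2 + 6 / ε) / ε⌉₊), ?_⟩⟩
  intro H hH B D Q hQ hK S hS
  have hzA : A.natAbs + 1 ≤ z := (le_max_left _ _).trans hz
  have hz6 : 6 / ε ^ 2 ≤ z := (Nat.le_ceil _).trans (by exact_mod_cast (le_max_right _ _).trans hz)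
  have hH2 : 2 ≤ H := (le_max_left _ _).trans hH
  have hHK : ⌈K⌉₊ + 1 ≤ H := ((le_max_left _ _).trans (le_max_right _ _)).trans hH
  have hHε : (2 + 6 / ε) / ε ≤ H := (Nat.le_ceil _).trans
    (by exact_mod_cast ((le_max_right _ _).trans (le_max_right _ _)).trans hH)
  have hz0 : (0 : ℝ) < z := by exact_mod_cast (by omega : 0 < z)
  have hH0 : (0 : ℝ) < H := by exact_mod_cast (by omega : 0 < H)
  have hKH : K < H := by
    have h1 := Nat.le_ceil K
    have h2 : ((⌈K⌉₊ : ℕ) : ℝ) + 1 ≤ H := by exact_mod_cast hHK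
    linarith
  -- the values are smaller than `H ^ 3`
  have hval : ∀ l ∈ Icc (-(H : ℤ)) H, (Q l).natAbs < H ^ 3 := by
    intro l hl
    have h1 := hK l hl
    have h2 : K * (H : ℝ) ^ 2 < (H : ℝ) ^ 3 := by
      have : (0 : ℝ) < (H : ℝ) ^ 2 := by positivity
      nlinarith
    exact_mod_cast lt_of_le_of_lt h1 h2
  set P : Finset ℕ := (Ioc z H).filter Nat.Prime with hP
  set S1 : Finset ℤ := (Icc (-(H : ℤ)) H).filter fun l => Q l ≠ 0 with hS1
  have hcard : (#(Icc (-(H : ℤ)) H) : ℝ) = 2 * H + 1 := by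
    rw [Int.card_Icc]
    have : ((H : ℤ) + 1 - -(H : ℤ)).toNat = 2 * H + 1 := by omega
    rw [this]
    push_cast
    ring
  -- the mean value
  have hmean : ∑ l ∈ S1, sg z (Q l).natAbs ≤ 3 * (2 * H + 1) / z + 6 := by
    have h1 : ∑ l ∈ S1, sg z (Q l).natAbs ≤
        ∑ l ∈ S1, ((∑ p ∈ P, if p ∣ (Q l).natAbs then 1 / (p : ℝ) else 0) + 2 / H) := by
      apply sum_le_sum
      intro l hl
      rw [hS1, mem_filter] at hl
      exact sg_le z H _ hH2 (Int.natAbs_ne_zero.2 hl.2) (hval l hl.1)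
    have h2 : ∑ l ∈ S1, (2 / H : ℝ) ≤ 6 := by
      rw [sum_const, nsmul_eq_mul]
      have h3 : (#S1 : ℝ) ≤ 2 * H + 1 := by
        rw [← hcard]
        exact_mod_cast card_le_card (filter_subset _ _)
      have h4 : (#S1 : ℝ) * (2 / H) ≤ (2 * H + 1) * (2 / H) :=
        mul_le_mul_of_nonneg_right h3 (by positivity)
      have h5 : (2 * H + 1) * (2 / (H : ℝ)) = 4 + 2 / H := by
        field_simp
        ring
      have h6 : 2 / (H : ℝ) ≤ 1 := by
        rw [div_le_one hH0]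
        exact_mod_cast hH2
      linarith
    have h3 : ∑ l ∈ S1, ∑ p ∈ P, (if p ∣ (Q l).natAbs then 1 / (p : ℝ) else 0) ≤
        3 * (2 * H + 1) / z := by
      rw [sum_comm]
      have h4 : ∀ p ∈ P, ∑ l ∈ S1, (if p ∣ (Q l).natAbs then 1 / (p : ℝ) else 0) ≤
          2 * (2 * H + 1) * (((p : ℝ) ^ 2)⁻¹) + 2 / z := by
        intro p hp
        rw [hP, mem_filter, mem_Ioc] at hp
        have hp0 : (0 : ℝ) < p := by exact_mod_cast hp.2.pos
        have hpA : ¬ (p : ℤ) ∣ A := by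
          intro h
          have h5 := Int.natAbs_dvd_natAbs.2 h
          rw [Int.natAbs_natCast] at h5
          have h6 := Nat.le_of_dvd (Int.natAbs_pos.2 hA) h5
          omega
        have h5 : (#(S1.filter fun l => p ∣ (Q l).natAbs) : ℝ) ≤ 2 * ((2 * H + 1) / p + 1) := by
          refine le_trans ?_ (roots_card p hp.2 H A B D hpA)
          have h6 : (S1.filter fun l => p ∣ (Q l).natAbs) ⊆
              ({l ∈ Icc (-(H : ℤ)) H | (p : ℤ) ∣ A * l ^ 2 + B * l + D} : Finset ℤ) := by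
            intro l hl
            rw [mem_filter, hS1, mem_filter] at hl
            rw [mem_filter]
            refine ⟨hl.1.1, ?_⟩
            rw [← hQ l]
            exact Int.natCast_dvd.2 hl.2
          exact_mod_cast card_le_card h6
        rw [← sum_filter, sum_const, nsmul_eq_mul]
        have h7 : (#(S1.filter fun l => p ∣ (Q l).natAbs) : ℝ) * (1 / p) ≤
            2 * ((2 * H + 1) / p + 1) * (1 / p) := mul_le_mul_of_nonneg_right h5 (by positivity)
        have h8 : 2 * ((2 * H + 1) / p + 1) * (1 / (p : ℝ)) =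
            2 * (2 * H + 1) * (((p : ℝ) ^ 2)⁻¹) + 2 / p := by field_simp
        have h9 : 2 / (p : ℝ) ≤ 2 / z :=
          div_le_div_of_nonneg_left (by norm_num) hz0 (by exact_mod_cast hp.1.1.le)
        linarith
      refine (sum_le_sum h4).trans ?_
      rw [sum_add_distrib, ← mul_sum, sum_const, nsmul_eq_mul]
      by_cases hzH : z ≤ H
      · have h5 : ∑ p ∈ P, ((p : ℝ) ^ 2)⁻¹ ≤ (z : ℝ)⁻¹ := by
          have h6 : ∑ p ∈ P, ((p : ℝ) ^ 2)⁻¹ ≤ ∑ p ∈ Ioc z H, ((p : ℝ) ^ 2)⁻¹ :=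
            sum_le_sum_of_subset_of_nonneg (filter_subset _ _) fun p _ _ => by positivity
          have h7 := sum_Ioc_inv_sq_le_sub (α := ℝ) (by omega : z ≠ 0) hzH
          have h8 : (0 : ℝ) ≤ (H : ℝ)⁻¹ := by positivity
          linarith
        have h6 : (#P : ℝ) ≤ H := by
          have : #P ≤ H := by
            refine (card_le_card (filter_subset _ _)).trans ?_
            rw [Nat.card_Ioc]
            omega
          exact_mod_cast this
        have h7 : 2 * (2 * H + 1) * ∑ p ∈ P, ((p : ℝ) ^ 2)⁻¹ ≤ 2 * (2 * H + 1) * (z : ℝ)⁻¹ :=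
          mul_le_mul_of_nonneg_left h5 (by positivity)
        have h8 : (#P : ℝ) * (2 / z) ≤ H * (2 / z) := mul_le_mul_of_nonneg_right h6 (by positivity)
        have h9 : 2 * (2 * (H : ℝ) + 1) * (z : ℝ)⁻¹ + H * (2 / z) ≤ 3 * (2 * H + 1) / z := by
          rw [← sub_nonneg]
          have : 3 * (2 * (H : ℝ) + 1) / z - (2 * (2 * (H : ℝ) + 1) * (z : ℝ)⁻¹ + H * (2 / z)) =
              1 / z := by
            field_simp
            ring
          rw [this]
          positivity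
        linarith
      · have h5 : P = ∅ := by
          rw [hP, Ioc_eq_empty (by omega), filter_empty]
        rw [h5]
        simp only [sum_empty, card_empty, Nat.cast_zero, mul_zero, zero_mul, add_zero]
        positivity
    rw [sum_add_distrib] at h1
    linarith
  -- Markov
  have hsub : S ⊆ ({l ∈ Icc (-(H : ℤ)) H | A * l ^ 2 + B * l + D = 0} : Finset ℤ) ∪
      S1.filter fun l => ε < sg z (Q l).natAbs := by
    intro l hl
    obtain ⟨h1, h2⟩ := hS l hl
    rw [mem_union, mem_filter, mem_filter, hS1, mem_filter]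
    by_cases h3 : Q l = 0
    · left
      exact ⟨h1, by rw [← hQ l]; exact h3⟩
    · right
      exact ⟨⟨h1, h3⟩, h2.resolve_left h3⟩
  have hc1 : (#S : ℝ) ≤ 2 + #(S1.filter fun l => ε < sg z (Q l).natAbs) := by
    have h1 := (card_le_card hsub).trans (card_union_le _ _)
    have h2 := zeros_card H A B D hA
    exact_mod_cast h1.trans (Nat.add_le_add_right h2 _)
  have hc2 : (#(S1.filter fun l => ε < sg z (Q l).natAbs) : ℝ) * ε ≤
      3 * (2 * H + 1) / z + 6 := by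
    refine le_trans ?_ hmean
    calc (#(S1.filter fun l => ε < sg z (Q l).natAbs) : ℝ) * ε
        = ∑ _l ∈ S1.filter (fun l => ε < sg z (Q l).natAbs), ε := by rw [sum_const, nsmul_eq_mul]
      _ ≤ ∑ l ∈ S1.filter (fun l => ε < sg z (Q l).natAbs), sg z (Q l).natAbs :=
          sum_le_sum fun l hl => (mem_filter.1 hl).2.le
      _ ≤ ∑ l ∈ S1, sg z (Q l).natAbs :=
          sum_le_sum_of_subset_of_nonneg (filter_subset _ _)
            fun l _ _ => Pool.Agent.Helper82K9.PR.sg_nonneg _ _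
  have hz6' : 3 * (2 * (H : ℝ) + 1) / z ≤ ε ^ 2 / 2 * (2 * H + 1) := by
    have h1 : 6 ≤ z * ε ^ 2 := by
      rwa [div_le_iff₀ (by positivity)] at hz6
    rw [div_le_iff₀ hz0]
    nlinarith [(by positivity : (0 : ℝ) < 2 * (H : ℝ) + 1)]
  have hH6 : 2 * ε + 6 ≤ ε ^ 2 * H := by
    have h1 : (2 + 6 / ε) ≤ H * ε := by
      rwa [div_le_iff₀ hε] at hHε
    have h2 : (2 + 6 / ε) * ε ≤ H * ε * ε := mul_le_mul_of_nonneg_right h1 hε.le
    have h3 : (2 + 6 / ε) * ε = 2 * ε + 6 := by field_simp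
    nlinarith
  have hfin : (#S : ℝ) * ε ≤ ε * (2 * H + 1) * ε := by
    have h1 : (#S : ℝ) * ε ≤ (2 + #(S1.filter fun l => ε < sg z (Q l).natAbs)) * ε :=
      mul_le_mul_of_nonneg_right hc1 hε.le
    nlinarith
  exact le_of_mul_le_mul_right hfin hε

end Pool.Agent.Helper88K9.PT
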